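import Mathlib
import Pool.Agent.Helper31.FrustDefs
import Pool.Agent.Helper31.Fr.Final

/-! Full answer to MP_9feecb_co (Q1 is true), with an explicit threshold for n. -/

namespace Pool.Agent.Results.MP_9feecb_co.FewFrustratedCycles

open Frust

theorem result (k : ℕ) (hk : 3 ≤ k) (t n : ℕ) (hn : 100 * k ^ 2 * (t + 1) ≤ n)
    (G : SimpleGraph (Fin n)) (hlt : frustCount k G < frustCount k (star n (t + 1))) :
    (∃ A : Set (Fin n), WithinFlips t G (completeBip A)) ∨
    (∃ A : Set (Fin n), WithinFlips t Gᶜ (completeBip A)) :=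
  Frust.main hk t hn G hlt

end Pool.Agent.Results.MP_9feecb_co.FewFrustratedCycles
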